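import Mathlib
import Pool.Agent.W23.UL.Defs

/-!
Few integers have a large smooth part (Rankin).
-/

set_option autoImplicit false

namespace Pool.Agent.W790.UL

open Finset

/-- `n ↦ n ^ (-σ)` -/
noncomputable def fh (σ : ℝ) : ℕ →* ℝ where
  toFun n := (n : ℝ) ^ (-σ)
  map_one' := by simp
  map_mul' a b := by
    push_cast
    exact Real.mul_rpow (Nat.cast_nonneg _) (Nat.cast_nonneg _)

theorem fh_apply (σ : ℝ) (n : ℕ) : fh σ n = (n : ℝ) ^ (-σ) := rfl

theorem inv_le_exp {x : ℝ} (h0 : 0 ≤ x) (h1 : x ≤ 3 / 4) : (1 - x)⁻¹ ≤ Real.exp (4 * x) := by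
  have h2 : 1 + 4 * x ≤ Real.exp (4 * x) := by
    have := Real.add_one_le_exp (4 * x)
    linarith
  have h3 : 0 < 1 - x := by linarith
  refine le_trans ?_ h2
  rw [inv_le_iff_one_le_mul₀ h3]
  nlinarith

theorem sum_inv_le (z : ℕ) : ∑ p ∈ (z + 1).primesBelow, ((p : ℝ))⁻¹ ≤ 1 + Real.log z := by
  have h1 := harmonic_le_one_add_log z
  have h2 : ((harmonic z : ℚ) : ℝ) = ∑ i ∈ Icc 1 z, ((i : ℝ))⁻¹ := by
    rw [harmonic_eq_sum_Icc]
    push_cast
    rfl
  rw [h2] at h1
  refine le_trans ?_ h1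
  apply Finset.sum_le_sum_of_subset_of_nonneg
  · intro p hp
    rw [Nat.mem_primesBelow] at hp
    rw [mem_Icc]
    exact ⟨hp.2.one_lt.le, by omega⟩
  · intro i _ _
    positivity

/-- Rankin's trick -/
theorem rankin (N z : ℕ) (hz : 1 ≤ z) {y α : ℝ} (hy : 0 < y) (hα : 0 < α) (hα2 : α ≤ 1 / 2) :
    (((Icc 1 N).filter (fun v : ℕ => y < Pool.Agent.W23.UL.smo z v)).card : ℝ) ≤
      N * (y ^ (-α) * Real.exp (4 * ((z : ℝ) ^ α * (1 + Real.log z)))) := by
  classical
  set S := (Icc 1 N).filter (fun v : ℕ => y < Pool.Agent.W23.UL.smo z v) with hS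
  set s : ℕ → ℕ := fun v => Pool.Agent.W23.UL.smo z v with hs
  have hsd : ∀ v, 1 ≤ v → s v ∣ v := by
    intro v hv
    have h1 : (v.primeFactorsList.filter (fun p => p ≤ z)).prod ∣ v.primeFactorsList.prod :=
      List.Sublist.prod_dvd_prod List.filter_sublist
    rwa [Nat.prod_primeFactorsList (by omega)] at h1
  have hsm : ∀ v, s v ∈ (z + 1).smoothNumbers := by
    intro v
    have h1 := Nat.prod_mem_smoothNumbers v (z + 1)
    have h2 : (v.primeFactorsList.filter (· < z + 1)) = v.primeFactorsList.filter (fun p => p ≤ z) := by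
      apply List.filter_congr
      intro p _
      simp only [Nat.lt_succ_iff]
    rw [h2] at h1
    exact h1
  have hc1 : (S.card : ℝ) ≤ ∑ m ∈ S.image s, (N : ℝ) / m := by
    rw [Finset.card_eq_sum_card_image s S]
    push_cast
    refine Finset.sum_le_sum fun m hm => ?_
    obtain ⟨v0, hv0, hv0m⟩ := Finset.mem_image.1 hm
    have h1 : (S.filter fun v => s v = m).card ≤ N / m := by
      rw [← Nat.Ioc_filter_dvd_card_eq_div]
      apply Finset.card_le_card
      intro v hv
      rw [Finset.mem_filter] at hv ⊢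
      have hv1 := (Finset.mem_filter.1 hv.1).1
      rw [mem_Icc] at hv1
      refine ⟨mem_Ioc.2 ⟨by omega, hv1.2⟩, ?_⟩
      rw [← hv.2]
      exact hsd v hv1.1
    calc ((S.filter fun v => s v = m).card : ℝ) ≤ ((N / m : ℕ) : ℝ) := by exact_mod_cast h1
      _ ≤ (N : ℝ) / m := Nat.cast_div_le
  have hc2 : ∑ m ∈ S.image s, (N : ℝ) / m ≤ N * (y ^ (-α) * ∑ m ∈ S.image s, fh (1 - α) m) := by
    rw [Finset.mul_sum, Finset.mul_sum]
    refine Finset.sum_le_sum fun m hm => ?_
    obtain ⟨v0, hv0, hv0m⟩ := Finset.mem_image.1 hm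
    have hym : y < m := by
      rw [← hv0m]
      exact (Finset.mem_filter.1 hv0).2
    have hm0 : (0 : ℝ) < m := hy.trans hym
    rw [div_eq_mul_inv]
    apply mul_le_mul_of_nonneg_left _ (Nat.cast_nonneg _)
    rw [fh_apply]
    have e1 : (m : ℝ) ^ (-(1 - α)) = (m : ℝ) ^ α * (m : ℝ)⁻¹ := by
      rw [show -(1 - α) = α + (-1) by ring, Real.rpow_add hm0, Real.rpow_neg_one]
    rw [e1, ← mul_assoc]
    apply le_mul_of_one_le_left (by positivity)
    rw [Real.rpow_neg hy.le, ← div_eq_inv_mul, one_le_div (by positivity)]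
    exact Real.rpow_le_rpow hy.le hym.le hα.le
  have hlt : ∀ {p : ℕ}, p.Prime → ‖fh (1 - α) p‖ < 1 := by
    intro p hp
    rw [fh_apply, Real.norm_of_nonneg (by positivity)]
    apply Real.rpow_lt_one_of_one_lt_of_neg
    · exact_mod_cast hp.one_lt
    · linarith
  obtain ⟨hsum, hhs⟩ := EulerProduct.summable_and_hasSum_smoothNumbers_prod_primesBelow_geometric
    (f := fh (1 - α)) hlt (z + 1)
  have hc3 : ∑ m ∈ S.image s, fh (1 - α) m ≤ ∏ p ∈ (z + 1).primesBelow, (1 - fh (1 - α) p)⁻¹ := by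
    let T : Finset ((z + 1).smoothNumbers) := (S.image s).subtype (fun m => m ∈ (z + 1).smoothNumbers)
    have h1 : ∑ m ∈ T, fh (1 - α) (m : ℕ) = ∑ m ∈ S.image s, fh (1 - α) m := by
      rw [Finset.sum_subtype_of_mem (f := fun m : ℕ => fh (1 - α) m)]
      intro m hm
      obtain ⟨v0, _, hv0m⟩ := Finset.mem_image.1 hm
      rw [← hv0m]
      exact hsm v0
    rw [← h1]
    refine sum_le_hasSum T (fun m _ => ?_) hhs
    rw [fh_apply]
    positivity
  have hc4 : ∏ p ∈ (z + 1).primesBelow, (1 - fh (1 - α) p)⁻¹ ≤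
      Real.exp (4 * ((z : ℝ) ^ α * (1 + Real.log z))) := by
    calc ∏ p ∈ (z + 1).primesBelow, (1 - fh (1 - α) p)⁻¹
        ≤ ∏ p ∈ (z + 1).primesBelow, Real.exp (4 * fh (1 - α) p) := by
          refine Finset.prod_le_prod (fun p hp => ?_) fun p hp => ?_
          · have := hlt (Nat.prime_of_mem_primesBelow hp)
            rw [Real.norm_eq_abs] at this
            have := (abs_lt.1 this).2
            exact inv_nonneg.2 (by linarith)
          · have hp' := Nat.prime_of_mem_primesBelow hp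
            refine inv_le_exp (by rw [fh_apply]; positivity) ?_
            rw [fh_apply]
            have h2 : (2 : ℝ) ≤ p := by exact_mod_cast hp'.two_le
            calc (p : ℝ) ^ (-(1 - α)) ≤ (2 : ℝ) ^ (-(1 - α)) :=
                  Real.rpow_le_rpow_of_nonpos (by norm_num) h2 (by linarith)
              _ ≤ (2 : ℝ) ^ (-(1 / 2) : ℝ) :=
                  Real.rpow_le_rpow_of_exponent_le (by norm_num) (by linarith)
              _ ≤ 3 / 4 := by
                  rw [Real.rpow_neg (by norm_num), ← Real.sqrt_eq_rpow, inv_le_comm₀ (by positivity) (by norm_num)]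
                  apply Real.le_sqrt_of_sq_le
                  norm_num
      _ = Real.exp (∑ p ∈ (z + 1).primesBelow, 4 * fh (1 - α) p) := (Real.exp_sum _ _).symm
      _ ≤ Real.exp (4 * ((z : ℝ) ^ α * (1 + Real.log z))) := by
          apply Real.exp_le_exp.2
          rw [← Finset.mul_sum]
          apply mul_le_mul_of_nonneg_left _ (by norm_num)
          calc ∑ p ∈ (z + 1).primesBelow, fh (1 - α) p
              ≤ ∑ p ∈ (z + 1).primesBelow, (z : ℝ) ^ α * ((p : ℝ))⁻¹ := by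
                refine Finset.sum_le_sum fun p hp => ?_
                have hp' := Nat.prime_of_mem_primesBelow hp
                have hp0 : (0 : ℝ) < p := by exact_mod_cast hp'.pos
                have hpz : (p : ℝ) ≤ z := by
                  have := Nat.lt_of_mem_primesBelow hp
                  exact_mod_cast (by omega : p ≤ z)
                rw [fh_apply, show -(1 - α) = α + (-1) by ring, Real.rpow_add hp0,
                  Real.rpow_neg_one]
                apply mul_le_mul_of_nonneg_right _ (by positivity)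
                exact Real.rpow_le_rpow hp0.le hpz hα.le
            _ = (z : ℝ) ^ α * ∑ p ∈ (z + 1).primesBelow, ((p : ℝ))⁻¹ := by rw [Finset.mul_sum]
            _ ≤ (z : ℝ) ^ α * (1 + Real.log z) :=
                mul_le_mul_of_nonneg_left (sum_inv_le z) (by positivity)
  calc (S.card : ℝ) ≤ N * (y ^ (-α) * ∑ m ∈ S.image s, fh (1 - α) m) := hc1.trans hc2
    _ ≤ _ := by
      apply mul_le_mul_of_nonneg_left _ (Nat.cast_nonneg _)
      apply mul_le_mul_of_nonneg_left (hc3.trans hc4) (by positivity)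

/-- the final numerical inequality -/
theorem numer (E U : ℕ) {c : ℝ} (hc : 0 < c) : ∃ L0 : ℝ, 1 ≤ L0 ∧ ∀ L : ℝ, L0 ≤ L →
    U * Real.log L + 4 * (L ^ (1 / 2 : ℝ) * (1 + E * Real.log L)) ≤ c * L := by
  have h1 := (isLittleO_log_rpow_atTop (r := 1 / 4) (by norm_num)).bound (c := 1) one_pos
  have h2 : Filter.Tendsto (fun L : ℝ => c * L ^ (1 / 4 : ℝ)) Filter.atTop Filter.atTop :=
    (tendsto_rpow_atTop (by norm_num)).const_mul_atTop hc
  have h3 := h2.eventually_ge_atTop (U + 4 + 4 * E : ℝ)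
  obtain ⟨L0, hL0⟩ := Filter.eventually_atTop.1 (h1.and h3)
  refine ⟨max 1 L0, le_max_left _ _, fun L hL => ?_⟩
  obtain ⟨g1, g2⟩ := hL0 L ((le_max_right _ _).trans hL)
  have hL1 : 1 ≤ L := (le_max_left _ _).trans hL
  have hL0' : 0 < L := by linarith
  rw [one_mul, Real.norm_of_nonneg (Real.log_nonneg hL1), Real.norm_of_nonneg (by positivity)] at g1
  set q := L ^ (1 / 4 : ℝ) with hq
  have hq1 : 1 ≤ q := Real.one_le_rpow hL1 (by norm_num)
  have e2 : L ^ (1 / 2 : ℝ) = q ^ 2 := by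
    rw [hq, ← Real.rpow_natCast, ← Real.rpow_mul hL0'.le]
    norm_num
  have e4 : L = q ^ 4 := by
    rw [hq, ← Real.rpow_natCast, ← Real.rpow_mul hL0'.le]
    norm_num
  have hU : (0 : ℝ) ≤ U := Nat.cast_nonneg _
  have hE : (0 : ℝ) ≤ E := Nat.cast_nonneg _
  have hq0 : 0 ≤ q := by linarith
  have a1 : U * Real.log L ≤ U * q ^ 3 := by
    apply mul_le_mul_of_nonneg_left _ hU
    calc Real.log L ≤ q := g1
      _ ≤ q ^ 3 := le_self_pow₀ hq1 (by norm_num)
  have a2 : 4 * (L ^ (1 / 2 : ℝ) * (1 + E * Real.log L)) ≤ (4 + 4 * E) * q ^ 3 := by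
    rw [e2]
    have : 1 + E * Real.log L ≤ (1 + E) * q := by nlinarith
    calc 4 * (q ^ 2 * (1 + E * Real.log L)) ≤ 4 * (q ^ 2 * ((1 + E) * q)) := by gcongr
      _ = _ := by ring
  calc U * Real.log L + 4 * (L ^ (1 / 2 : ℝ) * (1 + E * Real.log L))
      ≤ (U + 4 + 4 * E) * q ^ 3 := by nlinarith
    _ ≤ (c * q) * q ^ 3 := mul_le_mul_of_nonneg_right g2 (by positivity)
    _ = c * L := by rw [e4]; ring

theorem SMB : Pool.Agent.W23.UL.St_SMB := by
  intro E U τ hτ
  set α : ℝ := 1 / (2 * ((E : ℝ) + 1)) with hα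
  have hE : (0 : ℝ) ≤ E := Nat.cast_nonneg _
  have hα0 : 0 < α := by positivity
  have hα2 : α ≤ 1 / 2 := by
    rw [hα]
    apply one_div_le_one_div_of_le (by norm_num)
    linarith
  have hEα : (E : ℝ) * α ≤ 1 / 2 := by
    rw [hα]
    have : (0 : ℝ) < 2 * ((E : ℝ) + 1) := by positivity
    rw [mul_one_div, div_le_iff₀ this]
    linarith
  obtain ⟨L0, hL01, hL0⟩ := numer E U (c := τ * α) (by positivity)
  refine ⟨⌈Real.exp L0⌉₊, fun N hN z hz hzE => ?_⟩
  have hNe : Real.exp L0 ≤ N := (Nat.le_ceil _).trans (by exact_mod_cast hN)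
  have hN0 : (0 : ℝ) < N := (Real.exp_pos _).trans_le hNe
  set L := Real.log N with hL
  have hLL : L0 ≤ L := by
    rw [hL, Real.le_log_iff_exp_le hN0]
    exact hNe
  have hL1 : 1 ≤ L := hL01.trans hLL
  have hLpos : 0 < L := by linarith
  have hz1 : (1 : ℝ) ≤ z := by exact_mod_cast hz
  have h1 := rankin N z hz (y := (N : ℝ) ^ τ) (α := α) (by positivity) hα0 hα2
  refine h1.trans ?_
  rw [div_eq_mul_inv]
  apply mul_le_mul_of_nonneg_left _ hN0.le
  have e1 : ((N : ℝ) ^ τ) ^ (-α) = Real.exp (-(τ * α * L)) := by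
    rw [← Real.rpow_mul hN0.le, Real.rpow_def_of_pos hN0]
    congr 1
    rw [← hL]
    ring
  have e2 : (L ^ U)⁻¹ = Real.exp (-(U * Real.log L)) := by
    rw [Real.exp_neg, mul_comm, Real.exp_mul, Real.exp_log hLpos, Real.rpow_natCast]
  rw [e1, e2, ← Real.exp_add]
  apply Real.exp_le_exp.2
  have h2 := hL0 L hLL
  have h3 : (z : ℝ) ^ α ≤ L ^ (1 / 2 : ℝ) := by
    calc (z : ℝ) ^ α ≤ (L ^ E) ^ α := Real.rpow_le_rpow (by linarith) hzE hα0.le
      _ = L ^ ((E : ℝ) * α) := by
        rw [← Real.rpow_natCast, ← Real.rpow_mul hLpos.le]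
      _ ≤ L ^ (1 / 2 : ℝ) := Real.rpow_le_rpow_of_exponent_le hL1 hEα
  have h4 : Real.log z ≤ E * Real.log L := by
    calc Real.log z ≤ Real.log (L ^ E) := Real.log_le_log (by linarith) hzE
      _ = E * Real.log L := by rw [Real.log_pow]
  have h5 : 0 ≤ Real.log z := Real.log_nonneg hz1
  have h6 : (z : ℝ) ^ α * (1 + Real.log z) ≤ L ^ (1 / 2 : ℝ) * (1 + E * Real.log L) := by
    apply mul_le_mul h3 (by linarith) (by linarith) (by positivity)
  nlinarith

end Pool.Agent.W790.UL
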